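import Pool.Agent.Q170.PO.St2
import Pool.Agent.Q170.PO.Loc1
import Pool.Agent.Q210.PO.GEN

/-!
# Generic conditions for rational curves with prescribed poles (job PX-GEN of helper170)
-/

set_option autoImplicit false

open Polynomial

namespace Pool.Agent.Q261.PO

open Pool.Agent.Q170.PO Pool.Agent.Q210.PO

/-- values of an integral polynomial at complex points -/
noncomputable abbrev cx (h : ℤ[X]) : ℂ[X] := h.map (Int.castRingHom ℂ)

section gen

variable {n d : ℕ}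

/-- constant coefficients -/
noncomputable def cc (h : ℤ[X]) : (RR n d)[X] := h.map MvPolynomial.C

theorem cc_deg (h : ℤ[X]) : (cc (n := n) (d := d) h).natDegree ≤ h.natDegree := natDegree_map_le

theorem cc_map {S : Type} [CommRing S] (ψ : RR n d →+* S) (h : ℤ[X]) :
    (cc h).map ψ = h.map (Int.castRingHom S) := by
  unfold cc
  rw [Polynomial.map_map]
  congr 1
  exact RingHom.ext_int _ _

theorem cc_eval (x : Fin n × Fin (d + 1) → ℤ) (h : ℤ[X]) :
    (cc h).map (MvPolynomial.eval x) = h := by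
  rw [cc_map]
  have : (Int.castRingHom ℤ) = RingHom.id ℤ := RingHom.ext_int _ _
  rw [this, Polynomial.map_id]

/-- generic coprimality, tested at a complex specialization -/
theorem copC (A B : (RR n d)[X]) (u v : ℕ)
    (hA : A.natDegree ≤ u) (hB : B.natDegree ≤ v) (huv : u ≠ 0 ∨ v ≠ 0) (ψ : RR n d →+* ℂ)
    (h1 : (A.map ψ).natDegree = u) (h2 : A.map ψ ≠ 0)
    (h3 : ∀ ρ : ℂ, (A.map ψ).eval ρ = 0 → (B.map ψ).eval ρ ≠ 0) :
    Gn fun p a => IsCoprime ((A.map (MvPolynomial.eval a)).map (Int.castRingHom (ZMod p)))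
      ((B.map (MvPolynomial.eval a)).map (Int.castRingHom (ZMod p))) := by
  refine Gn.cop A B u v hA hB huv ψ ?_
  rw [← h1, resultant_eq_prod_eval _ _ v (natDegree_map_le.trans hB) (IsAlgClosed.splits _)]
  refine mul_ne_zero (pow_ne_zero _ (leadingCoeff_ne_zero.2 h2)) (Multiset.prod_ne_zero ?_)
  intro h0
  obtain ⟨ρ, hρ, h4⟩ := Multiset.mem_map.1 h0
  exact h3 ρ ((mem_roots h2).1 hρ) h4

/-- the polynomial `(F_l a) ^ M - (F_j b) ^ M` -/
noncomputable def rel (M : ℕ) (l j : Fin n) (a b : ℤ[X]) : (RR n d)[X] :=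
  (FF l * cc a) ^ M - (FF j * cc b) ^ M

theorem deg_term (M : ℕ) (l : Fin n) (a : ℤ[X]) (m : ℕ) (ha : a.natDegree ≤ m) :
    ((FF (d := d) l * cc a) ^ M).natDegree ≤ M * (d + m) := by
  refine natDegree_pow_le.trans (Nat.mul_le_mul_left M ?_)
  exact natDegree_mul_le.trans (Nat.add_le_add (FF_deg l) ((cc_deg a).trans ha))

theorem deg_rel (M : ℕ) (l j : Fin n) (a b : ℤ[X]) (m : ℕ) (ha : a.natDegree ≤ m)
    (hb : b.natDegree ≤ m) : (rel (d := d) M l j a b).natDegree ≤ M * (d + m) :=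
  (natDegree_sub_le _ _).trans (max_le (deg_term M l a m ha) (deg_term M j b m hb))

theorem rel_map {S : Type} [CommRing S] (ψ : RR n d →+* S) (G : Fin n → S[X])
    (hψ : ∀ i, (FF i).map ψ = G i) (M : ℕ) (l j : Fin n) (a b : ℤ[X]) :
    (rel M l j a b).map ψ = (G l * a.map (Int.castRingHom S)) ^ M -
      (G j * b.map (Int.castRingHom S)) ^ M := by
  unfold rel
  rw [Polynomial.map_sub, Polynomial.map_pow, Polynomial.map_pow, Polynomial.map_mul,
    Polynomial.map_mul, hψ, hψ, cc_map, cc_map]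

theorem exists_int (h : ℤ[X]) (h0 : h ≠ 0) : ∃ r : ℤ, (cx h).eval (r : ℂ) ≠ 0 := by
  obtain ⟨r, hr⟩ : ∃ r : ℤ, h.eval r ≠ 0 := by
    by_contra hcon
    push Not at hcon
    exact h0 (Polynomial.funext fun r => by rw [hcon r, eval_zero])
  refine ⟨r, ?_⟩
  have : (cx h).eval (r : ℂ) = ((h.eval r : ℤ) : ℂ) := by
    have := Polynomial.eval_map_apply (f := Int.castRingHom ℂ) (p := h) r
    simpa using this
  rw [this]
  exact_mod_cast hr

theorem Xr_deg (r : ℂ) (d : ℕ) : ((X - C r) ^ d : ℂ[X]).natDegree = d := by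
  rw [natDegree_pow, natDegree_X_sub_C, mul_one]

theorem Xr_ne (r : ℂ) (d : ℕ) : ((X - C r) ^ d : ℂ[X]) ≠ 0 := pow_ne_zero _ (X_sub_C_ne_zero r)

theorem gen_copg' (hd : 0 < d) (g : ℤ[X]) (hg : g ≠ 0) (i : Fin n) :
    Gn fun (p : ℕ) (a : Fin n × Fin (d + 1) → ℤ) =>
      IsCoprime (((FF i).map (MvPolynomial.eval a)).map (Int.castRingHom (ZMod p)))
      (((cc g).map (MvPolynomial.eval a)).map (Int.castRingHom (ZMod p))) := by
  obtain ⟨r, hr⟩ := exists_int g hg
  obtain ⟨ψ, hψ⟩ := exists_sp (S := ℂ) (n := n) (d := d) (fun _ => (X - C (r : ℂ)) ^ d)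
    (fun _ => (Xr_deg _ d).le)
  refine copC (FF i) (cc g) d g.natDegree (FF_deg i) (cc_deg g) (Or.inl hd.ne') ψ ?_ ?_ ?_
  · rw [hψ, Xr_deg]
  · rw [hψ]
    exact Xr_ne _ _
  · intro ρ h
    rw [hψ, eval_pow, eval_sub, eval_X, eval_C] at h
    have h1 : ρ = r := sub_eq_zero.1 (pow_eq_zero_iff hd.ne' |>.1 h)
    rw [cc_map, h1]
    exact hr

theorem gen_one' (hd : 0 < d) (M : ℕ) (hM : 0 < M) (g h : ℤ[X]) (hg : g ≠ 0) (j l a : Fin n)
    (hjl : j ≠ l) (haj : a ≠ j) (hal : a ≠ l) :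
    Gn fun (p : ℕ) (x : Fin n × Fin (d + 1) → ℤ) =>
      IsCoprime (((FF a).map (MvPolynomial.eval x)).map (Int.castRingHom (ZMod p)))
      (((rel M l j g h).map (MvPolynomial.eval x)).map (Int.castRingHom (ZMod p))) := by
  obtain ⟨r, hr⟩ := exists_int g hg
  obtain ⟨ψ, hψ⟩ := exists_sp (S := ℂ) (n := n) (d := d)
    (fun i => if i = a then (X - C (r : ℂ)) ^ d else if i = l then 1 else 0) (by
      intro i
      split_ifs
      · exact (Xr_deg _ d).le
      · rw [natDegree_one]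
        exact Nat.zero_le d
      · rw [natDegree_zero]
        exact Nat.zero_le d)
  refine copC (FF a) (rel M l j g h) d (M * (d + max g.natDegree h.natDegree)) (FF_deg a)
    (deg_rel M l j g h _ (le_max_left _ _) (le_max_right _ _)) (Or.inl hd.ne') ψ ?_ ?_ ?_
  · rw [hψ, if_pos rfl, Xr_deg]
  · rw [hψ, if_pos rfl]
    exact Xr_ne _ _
  · intro ρ h
    rw [hψ, if_pos rfl, eval_pow, eval_sub, eval_X, eval_C] at h
    have h1 : ρ = r := sub_eq_zero.1 (pow_eq_zero_iff hd.ne' |>.1 h)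
    rw [rel_map ψ _ hψ, if_neg hal.symm, if_pos rfl, if_neg haj.symm, if_neg hjl, zero_mul,
      zero_pow hM.ne', sub_zero, one_mul, eval_pow, h1]
    exact pow_ne_zero _ hr

theorem gen_pole' (M : ℕ) (hM : 0 < M) (q g h : ℤ[X]) (hq : 0 < q.natDegree)
    (hg : ∀ ρ : ℂ, (cx q).eval ρ = 0 → (cx g).eval ρ ≠ 0) (j l : Fin n) (hjl : j ≠ l) :
    Gn fun (p : ℕ) (x : Fin n × Fin (d + 1) → ℤ) =>
      IsCoprime (((cc q).map (MvPolynomial.eval x)).map (Int.castRingHom (ZMod p)))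
      (((rel M l j g h).map (MvPolynomial.eval x)).map (Int.castRingHom (ZMod p))) := by
  have hinj : Function.Injective (Int.castRingHom ℂ) := Int.cast_injective
  obtain ⟨ψ, hψ⟩ := exists_sp (S := ℂ) (n := n) (d := d)
    (fun i => if i = l then 1 else 0) (by
      intro i
      split_ifs
      · rw [natDegree_one]
        exact Nat.zero_le d
      · rw [natDegree_zero]
        exact Nat.zero_le d)
  refine copC (cc q) (rel M l j g h) q.natDegree (M * (d + max g.natDegree h.natDegree)) (cc_deg q)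
    (deg_rel M l j g h _ (le_max_left _ _) (le_max_right _ _)) (Or.inl hq.ne') ψ ?_ ?_ ?_
  · rw [cc_map, natDegree_map_eq_of_injective hinj]
  · rw [cc_map]
    intro h0
    rw [Polynomial.map_eq_zero_iff hinj] at h0
    rw [h0, natDegree_zero] at hq
    exact lt_irrefl _ hq
  · intro ρ h
    rw [cc_map] at h
    rw [rel_map ψ _ hψ, if_pos rfl, if_neg hjl, zero_mul,
      zero_pow hM.ne', sub_zero, one_mul, eval_pow]
    exact pow_ne_zero _ (hg ρ h)

theorem two_psi (hd : 0 < d) (M : ℕ) (hM : 0 < M) (l j y z : Fin n) (hlj : l ≠ j) (hyl : y ≠ l)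
    (hyj : y ≠ j) (hyz : y ≠ z) (a b P Q : ℤ[X]) (ha : a ≠ 0) (hb : b ≠ 0) (hP : P ≠ 0)
    (hPQ : ∀ ρ : ℂ, (cx P).eval ρ = 0 → (cx Q).eval ρ ≠ 0) :
    ∃ ψ : RR n d →+* ℂ, ((rel M l j a b).map ψ).natDegree =
        M * (d + max a.natDegree b.natDegree) ∧ (rel M l j a b).map ψ ≠ 0 ∧
      ∀ ρ : ℂ, ((rel M l j a b).map ψ).eval ρ = 0 → ((rel M y z P Q).map ψ).eval ρ ≠ 0 := by
  classical
  obtain ⟨r, hr⟩ := exists_int P hP
  set m := max a.natDegree b.natDegree with hm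
  have hinj : Function.Injective (Int.castRingHom ℂ) := Int.cast_injective
  have ham : (cx a).natDegree ≤ m := natDegree_map_le.trans (le_max_left _ _)
  have hbm : (cx b).natDegree ≤ m := natDegree_map_le.trans (le_max_right _ _)
  let t : ℂ := ((‖(cx a).coeff m‖ + 1 : ℝ) : ℂ)
  let γ : Fin n → ℂ := fun i => if i = j then t else 1
  have ht : t ≠ 0 := by
    simp only [t]
    rw [Complex.ofReal_ne_zero]
    positivity
  have hγ : ∀ i, γ i ≠ 0 := by
    intro i
    simp only [γ]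
    split_ifs
    · exact ht
    · exact one_ne_zero
  have hγl : γ l = 1 := if_neg hlj
  have hγj : γ j = t := if_pos rfl
  let Z : Fin n → ℂ[X] := fun i => C (γ i) * (X - C (r : ℂ)) ^ d
  have hZd : ∀ i, (Z i).natDegree ≤ d := by
    intro i
    refine (natDegree_C_mul_le _ _).trans ?_
    rw [Xr_deg]
  have hZc : ∀ i, (Z i).coeff d = γ i := by
    intro i
    have h1 : ((X - C (r : ℂ)) ^ d : ℂ[X]).coeff d = 1 := by
      have h2 := ((monic_X_sub_C (r : ℂ)).pow d).coeff_natDegree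
      rwa [Xr_deg] at h2
    simp only [Z]
    rw [coeff_C_mul, h1, mul_one]
  let A0 : ℂ[X] := (Z l * cx a) ^ M - (Z j * cx b) ^ M
  have hdeg : ∀ (i : Fin n) (c : ℂ[X]), c.natDegree ≤ m → (Z i * c).natDegree ≤ d + m :=
    fun i c hc => natDegree_mul_le.trans (Nat.add_le_add (hZd i) hc)
  have hcoef : ∀ (i : Fin n) (c : ℂ[X]), c.natDegree ≤ m →
      ((Z i * c) ^ M).coeff (M * (d + m)) = (γ i * c.coeff m) ^ M := by
    intro i c hc
    rw [coeff_pow_of_natDegree_le (hdeg i c hc), coeff_mul_add_eq_of_natDegree_le (hZd i) hc, hZc]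
  have hA0c : A0.coeff (M * (d + m)) ≠ 0 := by
    simp only [A0]
    rw [coeff_sub, hcoef l _ ham, hcoef j _ hbm, hγl, hγj, one_mul]
    intro h0
    have h1 := sub_eq_zero.1 h0
    have h2 : ‖(cx a).coeff m‖ ^ M = (‖t‖ * ‖(cx b).coeff m‖) ^ M := by
      rw [← norm_pow, h1, norm_pow, norm_mul]
    have h3 : ‖(cx a).coeff m‖ = ‖t‖ * ‖(cx b).coeff m‖ :=
      (pow_left_inj₀ (norm_nonneg _) (by positivity) hM.ne').1 h2
    have h4 : ‖t‖ = ‖(cx a).coeff m‖ + 1 := by
      simp only [t]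
      rw [Complex.norm_real, Real.norm_of_nonneg (by positivity)]
    have h5 : b.coeff m ≠ 0 := by
      intro hb0
      have h6 : (cx b).coeff m = 0 := by rw [coeff_map, hb0, map_zero]
      rw [h6, norm_zero, mul_zero] at h3
      have h7 : a.coeff m = 0 := by
        have := norm_eq_zero.1 h3
        rw [coeff_map] at this
        exact hinj (by rw [this, map_zero])
      rcases max_choice a.natDegree b.natDegree with h8 | h8
      · rw [← hm] at h8
        rw [h8] at h7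
        exact ha (leadingCoeff_eq_zero.1 h7)
      · rw [← hm] at h8
        rw [h8] at hb0
        exact hb (leadingCoeff_eq_zero.1 hb0)
    have h6 : 1 ≤ ‖(cx b).coeff m‖ := by
      rw [coeff_map, eq_intCast, Complex.norm_intCast]
      exact_mod_cast Int.one_le_abs h5
    rw [h4] at h3
    nlinarith [norm_nonneg ((cx a).coeff m)]
  have hA0deg : A0.natDegree = M * (d + m) := by
    refine natDegree_eq_of_le_of_coeff_ne_zero ?_ hA0c
    refine (natDegree_sub_le _ _).trans (max_le ?_ ?_)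
    · exact natDegree_pow_le.trans (Nat.mul_le_mul_left M (hdeg l _ ham))
    · exact natDegree_pow_le.trans (Nat.mul_le_mul_left M (hdeg j _ hbm))
  have hA0 : A0 ≠ 0 := by
    intro h0
    rw [h0, coeff_zero] at hA0c
    exact hA0c rfl
  -- the good constants
  let T : ℂ → ℂ[X] := fun ρ => (X * C ((cx P).eval ρ)) ^ M -
    C (((Z z).eval ρ * (cx Q).eval ρ) ^ M)
  have hT : ∀ ρ, T ρ ≠ 0 := by
    intro ρ h0
    have h1 : (T ρ).eval 0 = 0 := by rw [h0, eval_zero]
    have h2 : (T ρ).eval 1 = 0 := by rw [h0, eval_zero]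
    simp only [T, eval_sub, eval_pow, eval_mul, eval_X, eval_C, zero_mul, one_mul] at h1 h2
    rw [zero_pow hM.ne', zero_sub, neg_eq_zero] at h1
    rw [h1, sub_zero] at h2
    have h3 := (pow_eq_zero_iff hM.ne').1 h1
    have h4 := (pow_eq_zero_iff hM.ne').1 h2
    have h5 : (Z z).eval ρ = 0 := (mul_eq_zero.1 h3).resolve_right (hPQ ρ h4)
    simp only [Z, eval_mul, eval_C, eval_pow, eval_sub, eval_X] at h5
    have h6 := (mul_eq_zero.1 h5).resolve_left (hγ z)
    have h7 : ρ = r := sub_eq_zero.1 ((pow_eq_zero_iff hd.ne').1 h6)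
    rw [h7] at h4
    exact hr h4
  obtain ⟨τ, hτ⟩ : ∃ τ : ℂ, (∏ ρ ∈ A0.roots.toFinset, T ρ).eval τ ≠ 0 := by
    by_contra hcon
    push Not at hcon
    have h1 : ∏ ρ ∈ A0.roots.toFinset, T ρ = 0 :=
      Polynomial.funext fun x => by rw [hcon x, eval_zero]
    exact Finset.prod_ne_zero_iff.2 (fun ρ _ => hT ρ) h1
  obtain ⟨ψ, hψ⟩ := exists_sp (S := ℂ) (n := n) (d := d) (fun i => if i = y then C τ else Z i) (by
      intro i
      split_ifs
      · rw [natDegree_C]
        exact Nat.zero_le d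
      · exact hZd i)
  have e1 : (rel M l j a b).map ψ = A0 := by
    rw [rel_map ψ _ hψ, if_neg hyl.symm, if_neg hyj.symm]
  refine ⟨ψ, ?_, ?_, fun ρ hρ => ?_⟩
  · rw [e1]
    exact hA0deg
  · rw [e1]
    exact hA0
  · rw [e1] at hρ
    rw [rel_map ψ _ hψ, if_pos rfl, if_neg hyz.symm]
    have h1 : ρ ∈ A0.roots.toFinset := Multiset.mem_toFinset.2 ((mem_roots hA0).2 hρ)
    rw [eval_prod] at hτ
    have h2 := Finset.prod_ne_zero_iff.1 hτ ρ h1
    simpa only [T, eval_sub, eval_pow, eval_mul, eval_X, eval_C] using h2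

theorem gen_two' (hd : 0 < d) (M : ℕ) (hM : 0 < M) (j l j' l' : Fin n) (hjl : j ≠ l)
    (hjl' : j' ≠ l') (hne : ¬ ((j = j' ∧ l = l') ∨ (j = l' ∧ l = j'))) (a b a' b' : ℤ[X])
    (ha : a ≠ 0) (hb : b ≠ 0) (ha' : a' ≠ 0) (hb' : b' ≠ 0)
    (hab' : ∀ ρ : ℂ, (cx a').eval ρ = 0 → (cx b').eval ρ ≠ 0) :
    Gn fun (p : ℕ) (x : Fin n × Fin (d + 1) → ℤ) =>
      IsCoprime (((rel M l j a b).map (MvPolynomial.eval x)).map (Int.castRingHom (ZMod p)))
      (((rel M l' j' a' b').map (MvPolynomial.eval x)).map (Int.castRingHom (ZMod p))) := by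
  obtain ⟨y, hy, hyj, hyl⟩ : ∃ y, (y = l' ∨ y = j') ∧ y ≠ j ∧ y ≠ l := by
    by_contra hcon
    push Not at hcon
    have h1 := hcon l' (Or.inl rfl)
    have h2 := hcon j' (Or.inr rfl)
    by_cases h3 : l' = j
    · apply hne
      right
      refine ⟨h3.symm, (h2 fun h4 => hjl' (h4.trans h3.symm)).symm⟩
    · have h4 := h1 h3
      apply hne
      left
      refine ⟨?_, h4.symm⟩
      by_contra h5
      exact hjl' ((h2 fun h6 => h5 h6.symm).trans h4.symm)
  have hu : M * (d + max a.natDegree b.natDegree) ≠ 0 := by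
    have : 0 < M * (d + max a.natDegree b.natDegree) := Nat.mul_pos hM (by omega)
    exact this.ne'
  rcases hy with rfl | rfl
  · obtain ⟨ψ, h1, h2, h3⟩ := two_psi (n := n) hd M hM l j y j' hjl.symm hyl hyj hjl'.symm a b
      a' b' ha hb ha' hab'
    exact copC _ _ _ _ (deg_rel M l j a b _ (le_max_left _ _) (le_max_right _ _))
      (deg_rel M y j' a' b' _ (le_max_left _ _) (le_max_right _ _)) (Or.inl hu) ψ h1 h2 h3
  · obtain ⟨ψ, h1, h2, h3⟩ := two_psi (n := n) hd M hM l j y l' hjl.symm hyl hyj hjl' a b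
      b' a' ha hb hb' (fun ρ h h' => hab' ρ h' h)
    refine copC _ _ _ _ (deg_rel M l j a b _ (le_max_left _ _) (le_max_right _ _))
      (deg_rel M l' y a' b' _ (le_max_left _ _) (le_max_right _ _)) (Or.inl hu) ψ h1 h2 ?_
    intro ρ hρ h0
    apply h3 ρ hρ
    have e : rel (d := d) M y l' b' a' = - rel M l' y a' b' := by
      unfold rel
      ring
    rw [e, Polynomial.map_neg, eval_neg, h0, neg_zero]

end gen

section main

variable {n d : ℕ}

/-- no common zero in characteristic `p` -/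
theorem no_common {p : ℕ} {k : Type} [Field k] [CharP k p] {P Q : ℤ[X]}
    (h : IsCoprime (rd p P) (rd p Q)) (x : k) (hP : vl P x = 0) : vl Q x ≠ 0 := by
  intro hQ
  obtain ⟨u, v, he⟩ := h
  rw [vl_rd] at hP hQ
  have h1 := congrArg (Polynomial.eval₂ (ZMod.castHom dvd_rfl k) x) he
  rw [eval₂_add, eval₂_mul, eval₂_mul, hP, hQ, mul_zero, mul_zero, add_zero, eval₂_one] at h1
  exact zero_ne_one h1

theorem vl_ne_of_dvd {R : Type*} [CommRing R] [IsDomain R] {P Q : ℤ[X]} (h : P ∣ Q) (x : R)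
    (hQ : vl Q x ≠ 0) : vl P x ≠ 0 := by
  obtain ⟨c, rfl⟩ := h
  rw [vl_mul] at hQ
  exact left_ne_zero_of_mul hQ

theorem vl_rel {k : Type*} [Field k] (x : k) (M : ℕ) (f₁ f₂ a b : ℤ[X]) :
    vl ((f₁ * a) ^ M - (f₂ * b) ^ M) x = (vl f₁ x * vl a x) ^ M - (vl f₂ x * vl b x) ^ M := by
  rw [vl_sub, vl_pow, vl_pow, vl_mul, vl_mul]

theorem rel_eval (M : ℕ) (l j : Fin n) (a b : ℤ[X]) (x : Fin n → Fin (d + 1) → ℤ) :
    (rel M l j a b).map (MvPolynomial.eval fun q => x q.1 q.2) =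
      (pol (x l) * a) ^ M - (pol (x j) * b) ^ M := by
  have h1 : ∀ i, (FF (n := n) (d := d) i).map (MvPolynomial.eval fun q => x q.1 q.2) =
      pol (x i) := by
    intro i
    unfold FF
    rw [pol_map]
    congr 1
    funext k
    rw [MvPolynomial.eval_X]
  unfold rel
  rw [Polynomial.map_sub, Polynomial.map_pow, Polynomial.map_pow, Polynomial.map_mul,
    Polynomial.map_mul, h1, h1, cc_eval, cc_eval]

/-- the common part, and the two reduced parts -/
theorem reduced {T : ℕ} (π : Fin T → ℤ[X]) (hπ : ∀ t, 0 < (π t).natDegree)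
    (hcop : ∀ t t', t ≠ t' → ∀ ρ : ℂ, (cx (π t)).eval ρ = 0 → (cx (π t')).eval ρ ≠ 0)
    (K₁ K₂ : Fin T → ℕ) (c₁ c₂ : ℤ) (h1 : c₁ ≠ 0) (h2 : c₂ ≠ 0) :
    ∃ D a b : ℤ[X], C c₁ * ∏ t, π t ^ K₁ t = D * a ∧ C c₂ * ∏ t, π t ^ K₂ t = D * b ∧
      a ≠ 0 ∧ b ≠ 0 ∧ ∀ ρ : ℂ, (cx a).eval ρ = 0 → (cx b).eval ρ ≠ 0 := by
  have hπ0 : ∀ t, π t ≠ 0 := by
    intro t h
    have := hπ t
    rw [h, natDegree_zero] at this
    exact lt_irrefl _ this
  have hprod : ∀ K : Fin T → ℕ, ∏ t, π t ^ K t ≠ 0 := fun K =>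
    Finset.prod_ne_zero_iff.2 fun t _ => pow_ne_zero _ (hπ0 t)
  refine ⟨∏ t, π t ^ min (K₁ t) (K₂ t), C c₁ * ∏ t, π t ^ (K₁ t - min (K₁ t) (K₂ t)),
    C c₂ * ∏ t, π t ^ (K₂ t - min (K₁ t) (K₂ t)), ?_, ?_, ?_, ?_, ?_⟩
  · rw [mul_left_comm, ← Finset.prod_mul_distrib]
    congr 1
    refine Finset.prod_congr rfl fun t _ => ?_
    rw [← pow_add]
    congr 1
    omega
  · rw [mul_left_comm, ← Finset.prod_mul_distrib]
    congr 1
    refine Finset.prod_congr rfl fun t _ => ?_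
    rw [← pow_add]
    congr 1
    omega
  · exact mul_ne_zero (C_ne_zero.2 h1) (hprod _)
  · exact mul_ne_zero (C_ne_zero.2 h2) (hprod _)
  · intro ρ ha hb
    have key : ∀ (c : ℤ) (K : Fin T → ℕ), c ≠ 0 →
        (cx (C c * ∏ t, π t ^ K t)).eval ρ = 0 → ∃ t, (cx (π t)).eval ρ = 0 ∧ K t ≠ 0 := by
      intro c K hc h
      rw [cx, Polynomial.map_mul, map_C, eval_mul, eval_C, Polynomial.map_prod, eval_prod] at h
      have h3 : (Int.castRingHom ℂ) c ≠ 0 := by
        rw [eq_intCast]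
        exact_mod_cast hc
      obtain ⟨t, _, ht⟩ := Finset.prod_eq_zero_iff.1 ((mul_eq_zero.1 h).resolve_left h3)
      rw [Polynomial.map_pow, eval_pow] at ht
      refine ⟨t, eq_zero_of_pow_eq_zero ht, ?_⟩
      intro hK
      rw [hK, pow_zero] at ht
      exact one_ne_zero ht
    obtain ⟨t, ht, hKt⟩ := key _ _ h1 ha
    obtain ⟨t', ht', hKt'⟩ := key _ _ h2 hb
    have htt : t = t' := by
      by_contra hne
      exact hcop t t' hne ρ ht ht'
    subst htt
    omega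

theorem Hq_ne {T : ℕ} (π : Fin T → ℤ[X]) (K : Fin T → Fin n → ℕ) (c : Fin n → ℤ)
    (hc : ∀ i, c i ≠ 0)
    (hcop : ∀ t t', t ≠ t' → ∀ ρ : ℂ, (cx (π t)).eval ρ = 0 → (cx (π t')).eval ρ ≠ 0)
    (t : Fin T) (j : Fin n) (ρ : ℂ) (hρ : (cx (π t)).eval ρ = 0) :
    (cx (Hq π K c t j)).eval ρ ≠ 0 := by
  unfold Hq
  rw [cx, Polynomial.map_mul, map_C, eval_mul, eval_C, Polynomial.map_prod, eval_prod]
  refine mul_ne_zero ?_ (Finset.prod_ne_zero_iff.2 fun t' ht' => ?_)
  · rw [eq_intCast]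
    exact_mod_cast hc j
  · rw [Polynomial.map_pow, eval_pow]
    exact pow_ne_zero _ (hcop t t' (Finset.ne_of_mem_erase ht').symm ρ hρ)

/-- JOB PX-GEN -/
theorem gen2 : S_GEN2 := by
  intro n d hd g hg T π K c hc hgf hπ hcopQ M hM
  have hcop : ∀ t t', t ≠ t' → ∀ ρ : ℂ, (cx (π t)).eval ρ = 0 → (cx (π t')).eval ρ ≠ 0 := by
    intro t t' h ρ h1 h2
    obtain ⟨u, v, he⟩ := hcopQ t t' h
    have e1 : ∀ P : ℤ[X], (P.map (Int.castRingHom ℚ)).eval₂ (algebraMap ℚ ℂ) ρ =
        (cx P).eval ρ := by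
      intro P
      rw [eval₂_map, cx, eval_map]
      congr 1
    have h3 := congrArg (Polynomial.eval₂ (algebraMap ℚ ℂ) ρ) he
    rw [eval₂_add, eval₂_mul, eval₂_mul, e1, e1, h1, h2, mul_zero, mul_zero, add_zero,
      eval₂_one] at h3
    exact zero_ne_one h3
  have hred : ∀ j l : Fin n, ∃ D a b : ℤ[X], g j = D * a ∧ g l = D * b ∧ a ≠ 0 ∧ b ≠ 0 ∧
      ∀ ρ : ℂ, (cx a).eval ρ = 0 → (cx b).eval ρ ≠ 0 := by
    intro j l
    rw [hgf j, hgf l]
    exact reduced π hπ hcop (fun t => K t j) (fun t => K t l) (c j) (c l) (hc j) (hc l)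
  choose D ra rb hD1 hD2 hra hrb hrab using hred
  have h1 : Gn fun (p : ℕ) (a : Fin n × Fin (d + 1) → ℤ) => ∀ i : Fin n,
      ¬ (p : ℤ) ∣ a (i, Fin.last d) := Gn.all fun i => gen_pos i
  have h2 := Gn.all fun i : Fin n => gen_sep hd i
  have h3 := Gn.all fun i : Fin n => Gn.all fun j : Fin n => Gn.imp fun h : i ≠ j =>
    gen_cop hd i j h
  have h4 := Gn.all fun i : Fin n => Gn.all fun j : Fin n => gen_copg' hd (g j) (hg j) i
  have h5 := Gn.all fun j : Fin n => Gn.all fun l : Fin n => Gn.all fun j' : Fin n =>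
    Gn.all fun l' : Fin n => Gn.imp fun h : j ≠ l => Gn.imp fun h' : j' ≠ l' =>
    Gn.imp fun h'' : ¬ ((j = j' ∧ l = l') ∨ (j = l' ∧ l = j')) =>
      gen_two' hd M hM j l j' l' h h' h'' (ra j l) (rb j l) (ra j' l') (rb j' l') (hra j l)
        (hrb j l) (hra j' l') (hrb j' l') (hrab j' l')
  have h6 := Gn.all fun j : Fin n => Gn.all fun l : Fin n => Gn.all fun a : Fin n =>
    Gn.imp fun h : j ≠ l => Gn.imp fun h' : a ≠ j => Gn.imp fun h'' : a ≠ l =>
      gen_one' hd M hM (g j) (g l) (hg j) j l a h h' h''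
  have h7 := Gn.all fun t : Fin T => Gn.all fun j : Fin n => Gn.all fun l : Fin n =>
    Gn.imp fun h : j ≠ l => gen_pole' (d := d) M hM (π t) (Hq π K c t j) (Hq π K c t l) (hπ t)
      (fun ρ hρ => Hq_ne π K c hc hcop t j ρ hρ) j l h
  obtain ⟨E, hE, hq⟩ := h1.and (h2.and (h3.and (h4.and (h5.and (h6.and h7)))))
  refine ⟨0, E, hE, fun p hp _ a ha => ?_⟩
  obtain ⟨q1, q2, q3, q4, q5, q6, q7⟩ := hq p hp (fun q => a q.1 q.2) ha
  have : Fact p.Prime := ⟨hp⟩
  have hcg : ∀ i j, IsCoprime (rd p (pol (a i))) (rd p (g j)) := by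
    intro i j
    have h8 := q4 i j
    rw [cc_eval] at h8
    rw [rd_pol]
    exact h8
  constructor
  · refine ⟨fun i => pol_natDegree _, fun i => ?_, fun i => ?_, fun i j hij => ?_, hcg⟩
    · have h7 : (rd p (pol (a i))).coeff d ≠ 0 := by
        unfold rd
        rw [coeff_map]
        have h8 : (pol (a i)).coeff d = a i (Fin.last d) := pol_coeff (a i) (Fin.last d)
        rw [h8]
        intro h0
        exact q1 i ((ZMod.intCast_zmod_eq_zero_iff_dvd _ p).1 h0)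
      exact lt_of_lt_of_le hd (le_natDegree_of_ne_zero h7)
    · rw [rd_pol, derivative_map, derivative_map]
      exact q2 i
    · rw [rd_pol, rd_pol]
      exact q3 i j hij
  · refine ⟨fun k _ _ x hx j l j' l' h h' h'' he he' => ?_,
      fun k _ _ x b j l hb h h' h'' he => ?_, fun k _ _ x t j l ht h _ he => ?_⟩
    · have h8 := q5 j l j' l' h h' h''
      rw [rel_eval, rel_eval] at h8
      have key : ∀ j l : Fin n, (vl (pol (a l)) x * vl (g j) x) ^ M =
          (vl (pol (a j)) x * vl (g l) x) ^ M →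
          vl ((pol (a l) * ra j l) ^ M - (pol (a j) * rb j l) ^ M) x = 0 := by
        intro j l he
        have hDx : vl (D j l) x ≠ 0 := vl_ne_of_dvd ⟨ra j l, hD1 j l⟩ x (hx j)
        rw [vl_rel, sub_eq_zero]
        have e1 : vl (g j) x = vl (D j l) x * vl (ra j l) x := by
          conv_lhs => rw [hD1 j l]
          rw [vl_mul]
        have e2 : vl (g l) x = vl (D j l) x * vl (rb j l) x := by
          conv_lhs => rw [hD2 j l]
          rw [vl_mul]
        rw [e1, e2] at he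
        refine mul_left_cancel₀ (pow_ne_zero M hDx) ?_
        rw [← mul_pow, ← mul_pow]
        convert he using 2 <;> ring
      exact no_common h8 x (key j l he) (key j' l' he')
    · have h8 := q6 j l b h h' h''
      rw [rel_eval] at h8
      have h9 : IsCoprime (rd p (pol (a b)))
          (rd p ((pol (a l) * g j) ^ M - (pol (a j) * g l) ^ M)) := by
        rw [rd_pol]
        exact h8
      apply no_common h9 x hb
      rw [vl_rel, he, sub_self]
    · have h8 := q7 t j l h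
      rw [rel_eval, cc_eval] at h8
      apply no_common h8 x ht
      rw [vl_rel, he, sub_self]

end main

end Pool.Agent.Q261.PO
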